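import Mathlib

/-!
An explicit norm on finitely supported sequences whose canonical basis is symmetric for largest
coefficients (Property (A)) but is not unconditional.
-/

namespace Pool.Agent.H50.PA

open Finset

/-- damping factor: `max 0 (1 - r / 16 ^ i)` for `n` in the block `16 ^ i ≤ n < 16 ^ (i+1)`. -/
noncomputable def th (r n : ℕ) : ℝ := max 0 (1 - (r : ℝ) / 16 ^ (Nat.log 16 n))

/-- block weight `(-1/4) ^ i`. -/
noncomputable def w (n : ℕ) : ℝ := (-1 / 4 : ℝ) ^ (Nat.log 16 n)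

/-- coefficients of the conditional part of the functional attached to the finite set `B`. -/
noncomputable def cf (B : Finset ℕ) (n : ℕ) : ℝ := if n ∈ B then 0 else (1 / 64) * th B.card n * w n

lemma th_nonneg (r n : ℕ) : 0 ≤ th r n := le_max_left _ _

lemma th_le_one (r n : ℕ) : th r n ≤ 1 := by
  unfold th
  apply max_le zero_le_one
  have : (0 : ℝ) ≤ (r : ℝ) / 16 ^ (Nat.log 16 n) := by positivity
  linarith

lemma abs_w (n : ℕ) : |w n| = (1 / 4 : ℝ) ^ (Nat.log 16 n) := by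
  unfold w
  rw [abs_pow]
  congr 1
  rw [abs_of_neg (by norm_num)]
  norm_num

lemma abs_w_le (n : ℕ) : |w n| ≤ 1 := by
  rw [abs_w]
  exact pow_le_one₀ (by norm_num) (by norm_num)

lemma abs_cf_le (B : Finset ℕ) (n : ℕ) : |cf B n| ≤ 1 := by
  unfold cf
  split_ifs
  · simp
  · rw [abs_mul, abs_mul, abs_of_nonneg (th_nonneg _ _)]
    have h1 := th_le_one B.card n
    have h2 := abs_w_le n
    have h3 := th_nonneg B.card n
    have h4 := abs_nonneg (w n)
    rw [abs_of_pos (by norm_num : (0 : ℝ) < 1 / 64)]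
    nlinarith

lemma th_zero_of_le {r n : ℕ} (h : 16 ^ (Nat.log 16 n) ≤ r) : th r n = 0 := by
  unfold th
  apply max_eq_left
  have h1 : ((16 : ℝ) ^ (Nat.log 16 n)) ≤ r := by exact_mod_cast h
  have h2 : (0 : ℝ) < 16 ^ (Nat.log 16 n) := by positivity
  rw [sub_nonpos, le_div_iff₀ h2]
  linarith

lemma th_of_le {r n : ℕ} (h : r ≤ 16 ^ (Nat.log 16 n)) : th r n = 1 - (r : ℝ) / 16 ^ (Nat.log 16 n) := by
  unfold th
  apply max_eq_right
  have h1 : (r : ℝ) ≤ ((16 : ℝ) ^ (Nat.log 16 n)) := by exact_mod_cast h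
  have h2 : (0 : ℝ) < 16 ^ (Nat.log 16 n) := by positivity
  rw [sub_nonneg, div_le_iff₀ h2]
  linarith

lemma th_anti {r s : ℕ} (h : r ≤ s) (n : ℕ) : th s n ≤ th r n := by
  unfold th
  apply max_le_max le_rfl
  have h1 : (r : ℝ) ≤ s := by exact_mod_cast h
  have h2 : (0 : ℝ) < 16 ^ (Nat.log 16 n) := by positivity
  gcongr

/-- the one-step loss in the damping factors. -/
noncomputable def dl (r n : ℕ) : ℝ := (th r n - th (r + 1) n) * |w n|

lemma dl_nonneg (r n : ℕ) : 0 ≤ dl r n :=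
  mul_nonneg (sub_nonneg.2 (th_anti (Nat.le_succ r) n)) (abs_nonneg _)

lemma dl_zero {r n : ℕ} (h : 16 ^ (Nat.log 16 n) ≤ r) : dl r n = 0 := by
  unfold dl
  rw [th_zero_of_le h, th_zero_of_le (h.trans (Nat.le_succ r))]
  simp

lemma dl_eq {r n : ℕ} (h : r < 16 ^ (Nat.log 16 n)) : dl r n = (1 / 64 : ℝ) ^ (Nat.log 16 n) := by
  unfold dl
  rw [th_of_le h.le, th_of_le h, abs_w]
  push_cast
  have h2 : (0 : ℝ) < 16 ^ (Nat.log 16 n) := by positivity
  have : (1 - (r : ℝ) / 16 ^ (Nat.log 16 n) - (1 - ((r : ℝ) + 1) / 16 ^ (Nat.log 16 n)))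
      = (1 / 16 : ℝ) ^ (Nat.log 16 n) := by
    rw [one_div, inv_pow]
    field_simp
    ring
  rw [this, ← mul_pow]
  norm_num

lemma dl_le (r n : ℕ) : dl r n ≤ (1 / 64 : ℝ) ^ (Nat.log 16 n) := by
  rcases lt_or_ge r (16 ^ (Nat.log 16 n)) with h | h
  · exact (dl_eq h).le
  · rw [dl_zero h]; positivity

lemma log_of_mem_Ico {K n : ℕ} (h : n ∈ Ico (16 ^ K) (16 ^ (K + 1))) : Nat.log 16 n = K := by
  rw [mem_Ico] at h
  exact Nat.log_eq_of_pow_le_of_lt_pow h.1 h.2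

lemma sum_range_split (f : ℕ → ℝ) (K : ℕ) :
    ∑ n ∈ range (16 ^ (K + 1)), f n = ∑ n ∈ range (16 ^ K), f n
      + ∑ n ∈ Ico (16 ^ K) (16 ^ (K + 1)), f n := by
  rw [Finset.range_eq_Ico, Finset.range_eq_Ico, Finset.sum_Ico_consecutive]
  · exact Nat.zero_le _
  · exact Nat.pow_le_pow_right (by norm_num) (Nat.le_succ K)

lemma card_block (K : ℕ) : ((Ico (16 ^ K) (16 ^ (K + 1))).card : ℝ) = 15 * 16 ^ K := by
  rw [Nat.card_Ico, Nat.cast_sub (Nat.pow_le_pow_right (by norm_num) (Nat.le_succ K))]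
  push_cast
  rw [Nat.succ_eq_add_one]
  ring

/-- total one-step loss. -/
lemma sum_dl_le (r K : ℕ) : ∑ n ∈ range (16 ^ K), dl r n ≤
    21 * (1 / 4 : ℝ) ^ (Nat.clog 16 (r + 1)) - 20 * (1 / 4 : ℝ) ^ (max K (Nat.clog 16 (r + 1))) := by
  induction K with
  | zero =>
    simp only [pow_zero, range_one, sum_singleton, Nat.zero_max]
    rcases Nat.eq_zero_or_pos r with h | h
    · subst h
      have := dl_le 0 0
      simp at this ⊢
      linarith
    · rw [dl_zero (by simp; omega)]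
      have : (0 : ℝ) < (1 / 4 : ℝ) ^ (Nat.clog 16 (r + 1)) := by positivity
      linarith
  | succ K ih =>
    rw [sum_range_split]
    rcases lt_or_ge K (Nat.clog 16 (r + 1)) with h | h
    · have h1 : ∑ n ∈ Ico (16 ^ K) (16 ^ (K + 1)), dl r n = 0 := by
        apply sum_eq_zero
        intro n hn
        apply dl_zero
        rw [log_of_mem_Ico hn]
        have := (Nat.lt_clog_iff_pow_lt (by norm_num : 1 < 16)).1 h
        omega
      rw [h1, add_zero]
      rw [max_eq_right h.le] at ih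
      rw [max_eq_right h]
      exact ih
    · have h1 : ∑ n ∈ Ico (16 ^ K) (16 ^ (K + 1)), dl r n ≤ 15 * (1 / 4 : ℝ) ^ K := by
        calc ∑ n ∈ Ico (16 ^ K) (16 ^ (K + 1)), dl r n
            ≤ ∑ n ∈ Ico (16 ^ K) (16 ^ (K + 1)), (1 / 64 : ℝ) ^ K := by
              apply sum_le_sum
              intro n hn
              have := dl_le r n
              rwa [log_of_mem_Ico hn] at this
          _ = 15 * 16 ^ K * (1 / 64 : ℝ) ^ K := by
              rw [sum_const, nsmul_eq_mul, card_block]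
          _ = 15 * (1 / 4 : ℝ) ^ K := by
              rw [mul_assoc, ← mul_pow]; norm_num
      rw [max_eq_left h] at ih
      rw [max_eq_left (h.trans (Nat.le_succ K))]
      have h2 : (1 / 4 : ℝ) ^ (K + 1) = (1 / 4 : ℝ) ^ K * (1 / 4) := pow_succ _ _
      rw [h2]
      linarith

lemma sum_dl_le' (r : ℕ) (S : Finset ℕ) :
    ∑ n ∈ S, dl r n ≤ 21 * (1 / 4 : ℝ) ^ (Nat.clog 16 (r + 1)) := by
  obtain ⟨K, hK⟩ : ∃ K, S ⊆ range (16 ^ K) := by
    refine ⟨S.sup id, fun n hn => ?_⟩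
    rw [mem_range]
    exact lt_of_le_of_lt (Finset.le_sup (f := id) hn) (Nat.lt_pow_self (by norm_num))
  calc ∑ n ∈ S, dl r n ≤ ∑ n ∈ range (16 ^ K), dl r n :=
        sum_le_sum_of_subset_of_nonneg hK (fun _ _ _ => dl_nonneg _ _)
    _ ≤ _ := sum_dl_le r K
    _ ≤ _ := by
      have : (0 : ℝ) < (1 / 4 : ℝ) ^ (max K (Nat.clog 16 (r + 1))) := by positivity
      linarith

lemma th_mul_w_le (r n : ℕ) : th r n * |w n| ≤ (1 / 4 : ℝ) ^ (Nat.clog 16 (r + 1)) := by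
  rcases lt_or_ge r (16 ^ (Nat.log 16 n)) with h | h
  · have h1 : Nat.clog 16 (r + 1) ≤ Nat.log 16 n := Nat.clog_le_of_le_pow h
    rw [abs_w]
    calc th r n * (1 / 4 : ℝ) ^ (Nat.log 16 n) ≤ 1 * (1 / 4 : ℝ) ^ (Nat.log 16 n) := by
          gcongr
          exact th_le_one r n
      _ ≤ _ := by
          rw [one_mul]
          exact pow_le_pow_of_le_one (by norm_num) (by norm_num) h1
  · rw [th_zero_of_le h, zero_mul]
    positivity

/-- the gain `√(r+1) - √r` beats the loss. -/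
lemma sqrt_gain (r : ℕ) : (1 / 2) * (1 / 4 : ℝ) ^ (Nat.clog 16 (r + 1)) ≤
    √((r : ℝ) + 1) - √(r : ℝ) := by
  set i := Nat.clog 16 (r + 1) with hi
  have h1 : r + 1 ≤ 16 ^ i := Nat.le_pow_clog (by norm_num) _
  have h2 : ((r : ℝ) + 1) ≤ (4 ^ i) ^ 2 := by
    rw [← pow_mul, mul_comm, pow_mul]
    norm_num
    exact_mod_cast h1
  have h3 : √((r : ℝ) + 1) ≤ 4 ^ i := by
    rw [Real.sqrt_le_left (by positivity)]
    exact h2
  have h4 : √(r : ℝ) ≤ √((r : ℝ) + 1) := Real.sqrt_le_sqrt (by linarith)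
  have h5 : (√((r : ℝ) + 1)) ^ 2 = r + 1 := Real.sq_sqrt (by positivity)
  have h6 : (√(r : ℝ)) ^ 2 = r := Real.sq_sqrt (by positivity)
  have h7 : 0 ≤ √(r : ℝ) := Real.sqrt_nonneg _
  have h8 : 0 < √((r : ℝ) + 1) := Real.sqrt_pos.2 (by positivity)
  have h9 : (√((r : ℝ) + 1) - √(r : ℝ)) * (√((r : ℝ) + 1) + √(r : ℝ)) = 1 := by nlinarith
  have h10 : (1 / 2) * (1 / 4 : ℝ) ^ i = 1 / (2 * 4 ^ i) := by
    rw [one_div_pow]; field_simp
  rw [h10, div_le_iff₀ (by positivity)]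
  calc (1 : ℝ) = (√((r : ℝ) + 1) - √(r : ℝ)) * (√((r : ℝ) + 1) + √(r : ℝ)) := h9.symm
    _ ≤ (√((r : ℝ) + 1) - √(r : ℝ)) * (2 * 4 ^ i) := by
      apply mul_le_mul_of_nonneg_left _ (by linarith)
      linarith

end Pool.Agent.H50.PA
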