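import Pool.Agent.H50_PropA.PropA

namespace Pool.Agent.H50.PA

open Finset BoundedContinuousFunction

variable {𝕜 : Type} [RCLike 𝕜]

/-- the test coefficients `4 ^ (-i)` on the block `i`. -/
noncomputable def tc (n : ℕ) : ℝ := (1 / 4 : ℝ) ^ (Nat.log 16 n)

lemma tc_pos (n : ℕ) : 0 < tc n := by unfold tc; positivity

lemma tc_le_sqrt (n : ℕ) : tc n ≤ 4 / √((n : ℝ) + 1) := by
  unfold tc
  set i := Nat.log 16 n with hi
  have h1 : n < 16 ^ (i + 1) := Nat.lt_pow_succ_log_self (by norm_num) n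
  have h2 : ((n : ℝ) + 1) ≤ (4 ^ (i + 1)) ^ 2 := by
    rw [← pow_mul, mul_comm, pow_mul]
    norm_num
    exact_mod_cast h1
  have h3 : √((n : ℝ) + 1) ≤ 4 ^ (i + 1) := by
    rw [Real.sqrt_le_left (by positivity)]
    exact h2
  have h4 : 0 < √((n : ℝ) + 1) := Real.sqrt_pos.2 (by positivity)
  rw [le_div_iff₀ h4, one_div_pow, one_div, inv_mul_le_iff₀ (by positivity)]
  calc √((n : ℝ) + 1) ≤ 4 ^ (i + 1) := h3
    _ = 4 ^ i * 4 := pow_succ _ _

lemma sum_inv_sqrt_le (r : ℕ) : ∑ n ∈ range r, 4 / √((n : ℝ) + 1) ≤ 8 * √(r : ℝ) := by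
  induction r with
  | zero => simp
  | succ r ih =>
    rw [sum_range_succ]
    push_cast
    have hq : 0 < √((r : ℝ) + 1) := Real.sqrt_pos.2 (by positivity)
    have hq2 : (√((r : ℝ) + 1)) ^ 2 = r + 1 := Real.sq_sqrt (by positivity)
    have hp2 : (√(r : ℝ)) ^ 2 = r := Real.sq_sqrt (by positivity)
    have hp0 : 0 ≤ √(r : ℝ) := Real.sqrt_nonneg _
    have hpq : √(r : ℝ) ≤ √((r : ℝ) + 1) := Real.sqrt_le_sqrt (by linarith)
    have h : 4 / √((r : ℝ) + 1) ≤ 8 * (√((r : ℝ) + 1) - √(r : ℝ)) := by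
      rw [div_le_iff₀ hq]
      nlinarith
    linarith

lemma sum_tc_le (B : Finset ℕ) : ∑ n ∈ B, tc n ≤ 12 * √(B.card : ℝ) := by
  set r := B.card with hr
  rw [← sum_filter_add_sum_filter_not B (fun n => n < r)]
  have h1 : ∑ n ∈ B.filter (fun n => n < r), tc n ≤ 8 * √(r : ℝ) := by
    refine le_trans ?_ (sum_inv_sqrt_le r)
    refine le_trans (sum_le_sum fun n _ => tc_le_sqrt n) ?_
    apply sum_le_sum_of_subset_of_nonneg
    · intro n hn
      rw [mem_filter] at hn
      exact mem_range.2 hn.2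
    · intro n _ _
      positivity
  have h2 : ∑ n ∈ B.filter (fun n => ¬ n < r), tc n ≤ 4 * √(r : ℝ) := by
    rcases Nat.eq_zero_or_pos r with h0 | h0
    · have : B = ∅ := card_eq_zero.1 (by omega)
      rw [this]; simp
    calc ∑ n ∈ B.filter (fun n => ¬ n < r), tc n
        ≤ ∑ n ∈ B.filter (fun n => ¬ n < r), 4 / √(r : ℝ) := by
          apply sum_le_sum
          intro n hn
          rw [mem_filter, not_lt] at hn
          refine (tc_le_sqrt n).trans ?_
          have h5 : √(r : ℝ) ≤ √((n : ℝ) + 1) := by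
            apply Real.sqrt_le_sqrt
            have : (r : ℝ) ≤ n := by exact_mod_cast hn.2
            linarith
          have h6 : 0 < √(r : ℝ) := Real.sqrt_pos.2 (by exact_mod_cast h0)
          gcongr
      _ = ((B.filter (fun n => ¬ n < r)).card : ℝ) * (4 / √(r : ℝ)) := by
          rw [sum_const, nsmul_eq_mul]
      _ ≤ (r : ℝ) * (4 / √(r : ℝ)) := by
          gcongr
          exact card_filter_le _ _
      _ = 4 * √(r : ℝ) := by
          have h6 : 0 < √(r : ℝ) := Real.sqrt_pos.2 (by exact_mod_cast h0)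
          have hp2 : (√(r : ℝ)) ^ 2 = r := Real.sq_sqrt (by positivity)
          field_simp
          rw [hp2]
  linarith

variable (𝕜) in
/-- the bounded test vectors. -/
noncomputable def xp (k : ℕ) : ℕ →₀ 𝕜 := ind (range (16 ^ k)) (fun n => ((tc n : ℝ) : 𝕜))

lemma xp_apply (k n : ℕ) : xp 𝕜 k n = if n ∈ range (16 ^ k) then ((tc n : ℝ) : 𝕜) else 0 := ind_apply _ _ _

/-- the damping factor of block `i`. -/
noncomputable def thb (r i : ℕ) : ℝ := max 0 (1 - (r : ℝ) / 16 ^ i)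

lemma thb_mono (r : ℕ) {i j : ℕ} (h : i ≤ j) : thb r i ≤ thb r j := by
  unfold thb
  apply max_le_max le_rfl
  have : (16 : ℝ) ^ i ≤ 16 ^ j := pow_le_pow_right₀ (by norm_num) h
  gcongr

lemma thb_nonneg (r i : ℕ) : 0 ≤ thb r i := le_max_left _ _

lemma thb_le_one (r i : ℕ) : thb r i ≤ 1 := by
  unfold thb
  apply max_le zero_le_one
  have : (0 : ℝ) ≤ (r : ℝ) / 16 ^ i := by positivity
  linarith

lemma tc_mul_w (n : ℕ) : tc n * w n = (-1 / 16 : ℝ) ^ (Nat.log 16 n) := by
  unfold tc w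
  rw [← mul_pow]
  norm_num

/-- alternating sum of the blocks. -/
lemma alt_sum (r k : ℕ) : 0 ≤ (-1 : ℝ) ^ (k + 1) *
      (∑ n ∈ range (16 ^ k), th r n * (tc n * w n) - thb r 0) ∧
    (-1 : ℝ) ^ (k + 1) * (∑ n ∈ range (16 ^ k), th r n * (tc n * w n) - thb r 0) ≤ 15 * thb r k := by
  induction k with
  | zero =>
    simp [th, thb, tc_mul_w]
  | succ k ih =>
    have hb : ∑ n ∈ Ico (16 ^ k) (16 ^ (k + 1)), th r n * (tc n * w n) = (-1) ^ k * (15 * thb r k) := by
      calc ∑ n ∈ Ico (16 ^ k) (16 ^ (k + 1)), th r n * (tc n * w n)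
          = ∑ n ∈ Ico (16 ^ k) (16 ^ (k + 1)), thb r k * (-1 / 16 : ℝ) ^ k := by
            apply sum_congr rfl
            intro n hn
            rw [tc_mul_w, th, thb, log_of_mem_Ico hn]
        _ = 15 * 16 ^ k * (thb r k * (-1 / 16 : ℝ) ^ k) := by
            rw [sum_const, nsmul_eq_mul, card_block]
        _ = 15 * thb r k * (16 ^ k * (-1 / 16 : ℝ) ^ k) := by ring
        _ = _ := by
            rw [← mul_pow]; norm_num; ring
    rw [sum_range_split, hb]
    have h1 : (-1 : ℝ) ^ k * (-1 : ℝ) ^ k = 1 := by rw [← mul_pow]; norm_num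
    have h2 := thb_mono r (Nat.le_succ k)
    set Sg := ∑ n ∈ range (16 ^ k), th r n * (tc n * w n)
    have h3 : (-1 : ℝ) ^ (k + 1 + 1) * (Sg + (-1) ^ k * (15 * thb r k) - thb r 0)
        = 15 * thb r k - (-1 : ℝ) ^ (k + 1) * (Sg - thb r 0) := by
      have : (-1 : ℝ) ^ (k + 1 + 1) = (-1) ^ k := by rw [pow_succ, pow_succ]; ring
      rw [this, pow_succ]
      linear_combination (15 * thb r k) * h1
    rw [h3]
    constructor
    · linarith [ih.2]
    · have := ih.1
      have h4 : thb r k ≤ thb r (k + 1) := h2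
      linarith

lemma abs_alt_sum_le (r k : ℕ) : |∑ n ∈ range (16 ^ k), th r n * (tc n * w n)| ≤ 16 := by
  obtain ⟨h1, h2⟩ := alt_sum r k
  set s := ∑ n ∈ range (16 ^ k), th r n * (tc n * w n) - thb r 0 with hs
  have h3 : |s| ≤ 15 := by
    have : |(-1 : ℝ) ^ (k + 1) * s| = |s| := by
      rw [abs_mul, abs_pow, abs_neg, abs_one, one_pow, one_mul]
    rw [← this, abs_of_nonneg h1]
    linarith [thb_le_one r k]
  have h4 : ∑ n ∈ range (16 ^ k), th r n * (tc n * w n) = s + thb r 0 := by rw [hs]; ring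
  rw [h4]
  calc |s + thb r 0| ≤ |s| + |thb r 0| := abs_add_le _ _
    _ ≤ 15 + 1 := by
      gcongr
      rw [abs_of_nonneg (thb_nonneg _ _)]
      exact thb_le_one _ _
    _ = 16 := by norm_num

lemma sum_inside_le (B : Finset ℕ) (S : Finset ℕ) (hS : S ⊆ B) :
    |∑ n ∈ S, th B.card n * (tc n * w n)| ≤ 1 := by
  rcases Nat.eq_zero_or_pos B.card with h0 | h0
  · have : B = ∅ := card_eq_zero.1 (by omega)
    have : S = ∅ := by rw [this] at hS; exact subset_empty.1 hS
    rw [this]; simp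
  refine (abs_sum_le_sum_abs _ _).trans ?_
  calc ∑ n ∈ S, |th B.card n * (tc n * w n)| ≤ ∑ n ∈ S, 1 / (B.card : ℝ) := by
        apply sum_le_sum
        intro n _
        rw [abs_mul, abs_of_nonneg (th_nonneg _ _), tc_mul_w, abs_pow]
        rcases lt_or_ge B.card (16 ^ (Nat.log 16 n)) with h | h
        · have h1 : |(-1 / 16 : ℝ)| = 1 / 16 := by
            rw [abs_of_neg (by norm_num)]; norm_num
          rw [h1, one_div_pow]
          calc th B.card n * (1 / 16 ^ (Nat.log 16 n)) ≤ 1 * (1 / 16 ^ (Nat.log 16 n)) := by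
                gcongr; exact th_le_one _ _
            _ = 1 / 16 ^ (Nat.log 16 n) := one_mul _
            _ ≤ 1 / (B.card : ℝ) := by
                apply one_div_le_one_div_of_le (by exact_mod_cast h0)
                exact_mod_cast h.le
        · rw [th_zero_of_le h, zero_mul]; positivity
    _ = (S.card : ℝ) * (1 / (B.card : ℝ)) := by rw [sum_const, nsmul_eq_mul]
    _ ≤ (B.card : ℝ) * (1 / (B.card : ℝ)) := by
        gcongr
    _ = 1 := by
        have : (0 : ℝ) < B.card := by exact_mod_cast h0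
        field_simp

lemma G_xp_le (B : Finset ℕ) (k : ℕ) : G B (xp 𝕜 k) ≤ 13 := by
  unfold G
  have h1 : 1 / √(B.card : ℝ) * ∑ n ∈ B, ‖xp 𝕜 k n‖ ≤ 12 := by
    have h2 : ∑ n ∈ B, ‖xp 𝕜 k n‖ ≤ 12 * √(B.card : ℝ) := by
      refine le_trans (sum_le_sum fun n _ => ?_) (sum_tc_le B)
      rw [xp_apply]
      split_ifs
      · rw [RCLike.norm_ofReal, abs_of_pos (tc_pos n)]
      · rw [norm_zero]; exact (tc_pos n).le
    rcases Nat.eq_zero_or_pos B.card with h0 | h0
    · rw [h0]; simp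
    have h6 : 0 < √(B.card : ℝ) := Real.sqrt_pos.2 (by exact_mod_cast h0)
    rw [one_div, inv_mul_le_iff₀ h6]
    linarith
  have h2 : ‖fB B (xp 𝕜 k)‖ ≤ 1 := by
    have h3 : (xp 𝕜 k).support ⊆ range (16 ^ k) := by
      intro n hn
      rw [Finsupp.mem_support_iff, xp_apply] at hn
      by_contra h
      rw [if_neg h] at hn
      exact hn rfl
    rw [fB_eq B _ h3]
    have h4 : ∑ n ∈ range (16 ^ k), xp 𝕜 k n * ((cf B n : ℝ) : 𝕜) =
        (((1 / 64) * (∑ n ∈ range (16 ^ k), th B.card n * (tc n * w n) -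
          ∑ n ∈ (range (16 ^ k)).filter (fun n => n ∈ B), th B.card n * (tc n * w n)) : ℝ) : 𝕜) := by
      rw [sum_filter, ← sum_sub_distrib, mul_sum]
      push_cast
      apply sum_congr rfl
      intro n hn
      rw [xp_apply, if_pos hn]
      unfold cf
      split_ifs with h
      · push_cast; ring
      · push_cast; ring
    rw [h4, RCLike.norm_ofReal, abs_mul]
    have h5 := abs_alt_sum_le B.card k
    have h6 := sum_inside_le B ((range (16 ^ k)).filter (fun n => n ∈ B))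
      (fun n hn => (mem_filter.1 hn).2)
    have h7 := abs_sub (∑ n ∈ range (16 ^ k), th B.card n * (tc n * w n))
      (∑ n ∈ (range (16 ^ k)).filter (fun n => n ∈ B), th B.card n * (tc n * w n))
    rw [abs_of_pos (by norm_num : (0 : ℝ) < 1 / 64)]
    linarith
  linarith

lemma norm_T_xp_le (k : ℕ) : ‖T 𝕜 (xp 𝕜 k)‖ ≤ 13 := norm_T_le (by norm_num) fun B => G_xp_le B k

variable (𝕜) in
/-- the even blocks of `xp k`. -/
noncomputable def xe (k : ℕ) : ℕ →₀ 𝕜 :=
  ind ((range (16 ^ k)).filter (fun n => Even (Nat.log 16 n))) (fun n => ((tc n : ℝ) : 𝕜))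

lemma even_sum_ge (m : ℕ) : (m : ℝ) ≤
    ∑ n ∈ range (16 ^ (2 * m)), if Even (Nat.log 16 n) then tc n * w n else 0 := by
  induction m with
  | zero =>
    simp [tc_mul_w]
  | succ m ih =>
    have e : 2 * (m + 1) = 2 * m + 1 + 1 := by ring
    rw [e, sum_range_split, sum_range_split]
    have h1 : ∑ n ∈ Ico (16 ^ (2 * m)) (16 ^ (2 * m + 1)),
        (if Even (Nat.log 16 n) then tc n * w n else 0) = 15 := by
      calc ∑ n ∈ Ico (16 ^ (2 * m)) (16 ^ (2 * m + 1)),
        (if Even (Nat.log 16 n) then tc n * w n else 0) =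
          ∑ n ∈ Ico (16 ^ (2 * m)) (16 ^ (2 * m + 1)), (-1 / 16 : ℝ) ^ (2 * m) := by
            apply sum_congr rfl
            intro n hn
            rw [log_of_mem_Ico hn, if_pos (by simp), tc_mul_w, log_of_mem_Ico hn]
        _ = 15 * 16 ^ (2 * m) * (-1 / 16 : ℝ) ^ (2 * m) := by
            rw [sum_const, nsmul_eq_mul, card_block]
        _ = 15 := by
            rw [mul_assoc, ← mul_pow, pow_mul]; norm_num
    have h2 : ∑ n ∈ Ico (16 ^ (2 * m + 1)) (16 ^ (2 * m + 1 + 1)),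
        (if Even (Nat.log 16 n) then tc n * w n else 0) = 0 := by
      apply sum_eq_zero
      intro n hn
      rw [log_of_mem_Ico hn, if_neg]
      rw [Nat.not_even_iff_odd]
      exact odd_two_mul_add_one m
    rw [h1, h2]
    push_cast
    linarith

lemma norm_T_xe_ge (m : ℕ) : (m : ℝ) / 64 ≤ ‖T 𝕜 (xe 𝕜 (2 * m))‖ := by
  refine le_trans ?_ (G_le_norm_T ∅ (xe 𝕜 (2 * m)))
  unfold G
  simp only [sum_empty, mul_zero, zero_add]
  have h3 : (xe 𝕜 (2 * m)).support ⊆ range (16 ^ (2 * m)) := by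
    intro n hn
    rw [Finsupp.mem_support_iff, xe, ind_apply] at hn
    by_contra h
    rw [if_neg (fun h' => h (mem_filter.1 h').1)] at hn
    exact hn rfl
  rw [fB_eq _ _ h3]
  have h4 : ∑ n ∈ range (16 ^ (2 * m)), xe 𝕜 (2 * m) n * ((cf ∅ n : ℝ) : 𝕜) =
      (((1 / 64) * ∑ n ∈ range (16 ^ (2 * m)), (if Even (Nat.log 16 n) then tc n * w n else 0) : ℝ) : 𝕜) := by
    rw [mul_sum]
    push_cast
    apply sum_congr rfl
    intro n hn
    rw [xe, ind_apply]
    have h5 : cf ∅ n = 1 / 64 * w n := by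
      unfold cf
      rw [if_neg (Finset.notMem_empty n), card_empty]
      unfold th
      simp
    by_cases he : Even (Nat.log 16 n)
    · rw [if_pos (mem_filter.2 ⟨hn, he⟩), if_pos he, h5]
      push_cast
      ring
    · have h6 : n ∉ (range (16 ^ (2 * m))).filter (fun n => Even (Nat.log 16 n)) :=
        fun h' => he (mem_filter.1 h').2
      rw [if_neg h6, if_neg he]
      simp
  rw [h4, RCLike.norm_ofReal]
  have h6 := even_sum_ge m
  have h7 : (0 : ℝ) ≤ m := by positivity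
  rw [abs_mul, abs_of_pos (by norm_num : (0 : ℝ) < 1 / 64), abs_of_nonneg (h7.trans h6)]
  linarith

end Pool.Agent.H50.PA
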