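import Pool.Agent.H50_PropA.Basic

namespace Pool.Agent.H50.PA

open Finset BoundedContinuousFunction

/-- index set of the norming functionals: a finite set together with coefficients in the unit
ball. -/
def W (𝕜 : Type) [RCLike 𝕜] : Type := Finset ℕ × {e : ℕ → 𝕜 // ∀ n, ‖e n‖ ≤ 1}

instance (𝕜 : Type) [RCLike 𝕜] : TopologicalSpace (W 𝕜) := ⊥

instance (𝕜 : Type) [RCLike 𝕜] : DiscreteTopology (W 𝕜) := ⟨rfl⟩

variable {𝕜 : Type} [RCLike 𝕜]

/-- coefficients of the norming functional with index `p`. -/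
noncomputable def gg (p : W 𝕜) (n : ℕ) : 𝕜 :=
  if n ∈ p.1 then p.2.1 n * ((1 / √(p.1.card : ℝ) : ℝ) : 𝕜) else ((cf p.1 n : ℝ) : 𝕜)

lemma norm_gg_le (p : W 𝕜) (n : ℕ) : ‖gg p n‖ ≤ 1 := by
  unfold gg
  split_ifs with h
  · rw [norm_mul, RCLike.norm_ofReal]
    have h1 := p.2.2 n
    have h2 : (1 : ℝ) ≤ √(p.1.card : ℝ) := by
      rw [Real.one_le_sqrt]
      exact_mod_cast Finset.card_pos.2 ⟨n, h⟩
    have h3 : |1 / √(p.1.card : ℝ)| ≤ 1 := by
      rw [abs_of_nonneg (by positivity), div_le_one (by linarith)]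
      exact h2
    calc ‖p.2.1 n‖ * |1 / √(p.1.card : ℝ)| ≤ 1 * 1 := by gcongr
      _ = 1 := one_mul 1
  · rw [RCLike.norm_ofReal]
    exact abs_cf_le _ _

variable (𝕜) in
/-- the basis vectors, as bounded functions on the index set. -/
noncomputable def v (n : ℕ) : W 𝕜 →ᵇ 𝕜 :=
  BoundedContinuousFunction.ofNormedAddCommGroupDiscrete (fun p => gg p n) 1
    (fun p => norm_gg_le p n)

lemma v_apply (n : ℕ) (p : W 𝕜) : v 𝕜 n p = gg p n := rfl

variable (𝕜) in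
/-- the linear map sending a finitely supported sequence to the corresponding vector. -/
noncomputable def T : (ℕ →₀ 𝕜) →ₗ[𝕜] (W 𝕜 →ᵇ 𝕜) := Finsupp.linearCombination 𝕜 (v 𝕜)

lemma T_apply (x : ℕ →₀ 𝕜) (p : W 𝕜) : T 𝕜 x p = ∑ n ∈ x.support, x n * gg p n := by
  unfold T
  rw [Finsupp.linearCombination_apply, Finsupp.sum]
  rw [BoundedContinuousFunction.coe_sum, Finset.sum_apply]
  rfl

lemma T_apply' (x : ℕ →₀ 𝕜) (p : W 𝕜) {S : Finset ℕ} (hS : x.support ⊆ S) :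
    T 𝕜 x p = ∑ n ∈ S, x n * gg p n := by
  rw [T_apply]
  apply sum_subset hS
  intro n _ hn
  rw [Finsupp.notMem_support_iff] at hn
  simp [hn]

/-- conditional part. -/
noncomputable def fB (B : Finset ℕ) (x : ℕ →₀ 𝕜) : 𝕜 := ∑ n ∈ x.support, x n * ((cf B n : ℝ) : 𝕜)

lemma fB_eq (B : Finset ℕ) (x : ℕ →₀ 𝕜) {S : Finset ℕ} (hS : x.support ⊆ S) :
    fB B x = ∑ n ∈ S, x n * ((cf B n : ℝ) : 𝕜) := by
  unfold fB
  apply sum_subset hS
  intro n _ hn
  rw [Finsupp.notMem_support_iff] at hn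
  simp [hn]

lemma cf_of_mem {B : Finset ℕ} {n : ℕ} (h : n ∈ B) : cf B n = 0 := by simp [cf, h]

lemma T_split (x : ℕ →₀ 𝕜) (p : W 𝕜) :
    T 𝕜 x p = ((1 / √(p.1.card : ℝ) : ℝ) : 𝕜) * ∑ n ∈ p.1, x n * p.2.1 n + fB p.1 x := by
  have h1 : x.support ⊆ x.support ∪ p.1 := subset_union_left
  rw [T_apply' x p h1, fB_eq p.1 x h1]
  have h2 : ∑ n ∈ p.1, x n * p.2.1 n = ∑ n ∈ x.support ∪ p.1, if n ∈ p.1 then x n * p.2.1 n else 0 := by
    rw [← Finset.sum_filter]
    congr 1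
    ext n
    simp
  rw [h2, mul_sum, ← sum_add_distrib]
  apply sum_congr rfl
  intro n _
  unfold gg
  split_ifs with h
  · rw [cf_of_mem h]; simp; ring
  · simp

/-- the value of the norm seen by the set `B`. -/
noncomputable def G (B : Finset ℕ) (x : ℕ →₀ 𝕜) : ℝ := (1 / √(B.card : ℝ)) * ∑ n ∈ B, ‖x n‖ + ‖fB B x‖

lemma G_nonneg (B : Finset ℕ) (x : ℕ →₀ 𝕜) : 0 ≤ G B x := by
  unfold G; positivity

lemma norm_T_apply_le (x : ℕ →₀ 𝕜) (p : W 𝕜) : ‖T 𝕜 x p‖ ≤ G p.1 x := by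
  rw [T_split]
  refine (norm_add_le _ _).trans ?_
  unfold G
  gcongr
  rw [norm_mul, RCLike.norm_ofReal, abs_of_nonneg (by positivity)]
  gcongr
  refine (norm_sum_le _ _).trans (sum_le_sum fun n _ => ?_)
  rw [norm_mul]
  calc ‖x n‖ * ‖p.2.1 n‖ ≤ ‖x n‖ * 1 := by gcongr; exact p.2.2 n
    _ = _ := mul_one _

/-- phase of a scalar -/
noncomputable def ph (z : 𝕜) : 𝕜 := if z = 0 then 1 else z / (‖z‖ : 𝕜)

lemma norm_ph (z : 𝕜) : ‖ph z‖ = 1 := by
  unfold ph
  split_ifs with h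
  · exact norm_one
  · rw [norm_div, RCLike.norm_ofReal, abs_norm, div_self (norm_ne_zero_iff.2 h)]

lemma ph_mul (z : 𝕜) : ph z * (‖z‖ : 𝕜) = z := by
  unfold ph
  split_ifs with h
  · simp [h]
  · rw [div_mul_cancel₀]
    rw [Ne, RCLike.ofReal_eq_zero]
    exact norm_ne_zero_iff.2 h

lemma mul_conj_ph (z : 𝕜) : z * (starRingEnd 𝕜) (ph z) = (‖z‖ : 𝕜) := by
  have h : ph z * (starRingEnd 𝕜) (ph z) = 1 := by
    rw [RCLike.mul_conj, norm_ph]; simp
  calc z * (starRingEnd 𝕜) (ph z) = (ph z * (‖z‖ : 𝕜)) * (starRingEnd 𝕜) (ph z) := by rw [ph_mul]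
    _ = (ph z * (starRingEnd 𝕜) (ph z)) * (‖z‖ : 𝕜) := by ring
    _ = _ := by rw [h, one_mul]

lemma G_le_norm_T (B : Finset ℕ) (x : ℕ →₀ 𝕜) : G B x ≤ ‖T 𝕜 x‖ := by
  let e : ℕ → 𝕜 := fun n => ph (fB B x) * (starRingEnd 𝕜) (ph (x n))
  have he : ∀ n, ‖e n‖ ≤ 1 := fun n => by
    simp only [e, norm_mul, RCLike.norm_conj, norm_ph, mul_one, le_refl]
  let p : W 𝕜 := (B, ⟨e, he⟩)
  have h1 : T 𝕜 x p = ph (fB B x) * ((G B x : ℝ) : 𝕜) := by
    rw [T_split]
    change ((1 / √(B.card : ℝ) : ℝ) : 𝕜) * ∑ n ∈ B, x n * e n + fB B x = _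
    have h2 : ∑ n ∈ B, x n * e n = ph (fB B x) * ((∑ n ∈ B, ‖x n‖ : ℝ) : 𝕜) := by
      push_cast
      rw [mul_sum]
      apply sum_congr rfl
      intro n _
      simp only [e]
      calc x n * (ph (fB B x) * (starRingEnd 𝕜) (ph (x n)))
          = ph (fB B x) * (x n * (starRingEnd 𝕜) (ph (x n))) := by ring
        _ = _ := by rw [mul_conj_ph]
    rw [h2]
    unfold G
    push_cast
    rw [mul_add, ph_mul]
    ring
  have h3 : ‖T 𝕜 x p‖ = G B x := by
    rw [h1, norm_mul, norm_ph, one_mul, RCLike.norm_ofReal, abs_of_nonneg (G_nonneg B x)]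
  rw [← h3]
  exact BoundedContinuousFunction.norm_coe_le_norm _ _

lemma norm_T_le {x : ℕ →₀ 𝕜} {C : ℝ} (hC : 0 ≤ C) (h : ∀ B, G B x ≤ C) : ‖T 𝕜 x‖ ≤ C := by
  rw [BoundedContinuousFunction.norm_le hC]
  intro p
  exact (norm_T_apply_le x p).trans (h p.1)

/-- difference of the conditional parts for one added index. -/
lemma norm_fB_sub_le {B : Finset ℕ} {a : ℕ} (ha : a ∉ B) (x : ℕ →₀ 𝕜) {t : ℝ} (ht : 0 ≤ t)
    (hx : ∀ n, ‖x n‖ ≤ t) :
    ‖fB B x - fB (insert a B) x‖ ≤ (1 / 2) * (1 / 4 : ℝ) ^ (Nat.clog 16 (B.card + 1)) * t := by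
  set S := insert a x.support with hS
  have h1 : x.support ⊆ S := subset_insert _ _
  rw [fB_eq B x h1, fB_eq (insert a B) x h1, ← sum_sub_distrib]
  set r := B.card with hr
  have hcard : (insert a B).card = r + 1 := card_insert_of_notMem ha
  have h2 : ∀ n ∈ S, ‖x n * ((cf B n : ℝ) : 𝕜) - x n * ((cf (insert a B) n : ℝ) : 𝕜)‖ ≤
      t * (1 / 64) * (dl r n + if n = a then th r a * |w a| else 0) := by
    intro n _
    rw [← mul_sub, norm_mul, ← RCLike.ofReal_sub, RCLike.norm_ofReal, mul_assoc]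
    have h3 : |cf B n - cf (insert a B) n| ≤
        1 / 64 * (dl r n + if n = a then th r a * |w a| else 0) := by
      by_cases hna : n = a
      · subst hna
        rw [cf_of_mem (mem_insert_self n B), sub_zero]
        unfold cf
        rw [if_neg ha, if_pos rfl, abs_mul, abs_mul, abs_of_nonneg (th_nonneg _ _),
          abs_of_pos (by norm_num : (0 : ℝ) < 1 / 64)]
        have := dl_nonneg r n
        rw [mul_assoc]
        gcongr
        linarith
      · rw [if_neg hna, add_zero]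
        by_cases hnB : n ∈ B
        · rw [cf_of_mem hnB, cf_of_mem (mem_insert_of_mem hnB)]
          simp only [sub_self, abs_zero]
          have := dl_nonneg r n
          positivity
        · have hnB' : n ∉ insert a B := by
            rw [mem_insert, not_or]; exact ⟨hna, hnB⟩
          unfold cf
          rw [if_neg hnB, if_neg hnB', hcard]
          unfold dl
          have h5 : 1 / 64 * th r n * w n - 1 / 64 * th (r + 1) n * w n =
              1 / 64 * ((th r n - th (r + 1) n) * w n) := by ring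
          rw [h5, abs_mul, abs_mul, abs_of_nonneg (sub_nonneg.2 (th_anti (Nat.le_succ r) n)),
            abs_of_pos (by norm_num : (0 : ℝ) < 1 / 64)]
    exact mul_le_mul (hx n) h3 (abs_nonneg _) ht
  refine (norm_sum_le_of_le _ h2).trans ?_
  rw [← mul_sum, sum_add_distrib, sum_ite_eq' S a]
  have h6 : a ∈ S := mem_insert_self _ _
  rw [if_pos h6]
  have h7 := sum_dl_le' r S
  have h8 := th_mul_w_le r a
  have h9 : (0 : ℝ) < (1 / 4 : ℝ) ^ (Nat.clog 16 (r + 1)) := by positivity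
  calc t * (1 / 64) * (∑ n ∈ S, dl r n + th r a * |w a|)
      ≤ t * (1 / 64) * (21 * (1 / 4 : ℝ) ^ (Nat.clog 16 (r + 1)) + (1 / 4 : ℝ) ^ (Nat.clog 16 (r + 1))) := by
        gcongr
    _ = (22 / 64) * ((1 / 4 : ℝ) ^ (Nat.clog 16 (r + 1)) * t) := by ring
    _ ≤ (1 / 2) * ((1 / 4 : ℝ) ^ (Nat.clog 16 (r + 1)) * t) := by
        apply mul_le_mul_of_nonneg_right (by norm_num) (by positivity)
    _ = _ := by ring

/-- adding an index with the largest coefficient does not decrease `G`. -/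
lemma G_insert {B : Finset ℕ} {a : ℕ} (ha : a ∉ B) (x : ℕ →₀ 𝕜)
    (hx : ∀ n, ‖x n‖ ≤ ‖x a‖) : G B x ≤ G (insert a B) x := by
  set t := ‖x a‖ with ht
  have ht0 : 0 ≤ t := norm_nonneg _
  have h1 := norm_fB_sub_le ha x ht0 hx
  have h2 := sqrt_gain B.card
  unfold G
  rw [card_insert_of_notMem ha, sum_insert ha, ← ht]
  set r := B.card with hr
  set s := ∑ n ∈ B, ‖x n‖ with hs
  have hs0 : 0 ≤ s := sum_nonneg fun _ _ => norm_nonneg _
  have hst : s ≤ r * t := by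
    calc s ≤ ∑ n ∈ B, t := sum_le_sum fun n _ => hx n
      _ = r * t := by rw [sum_const, nsmul_eq_mul]
  have h3 : ‖fB B x‖ ≤ ‖fB (insert a B) x‖ + ‖fB B x - fB (insert a B) x‖ := by
    have := norm_add_le (fB (insert a B) x) (fB B x - fB (insert a B) x)
    rwa [add_sub_cancel] at this
  push_cast
  have h4 : 1 / √(r : ℝ) * s + (√((r : ℝ) + 1) - √(r : ℝ)) * t ≤ 1 / √((r : ℝ) + 1) * (t + s) := by
    have hq : 0 < √((r : ℝ) + 1) := Real.sqrt_pos.2 (by positivity)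
    have hq2 : (√((r : ℝ) + 1)) ^ 2 = r + 1 := Real.sq_sqrt (by positivity)
    have hp2 : (√(r : ℝ)) ^ 2 = r := Real.sq_sqrt (by positivity)
    have hp0 : 0 ≤ √(r : ℝ) := Real.sqrt_nonneg _
    have hpq : √(r : ℝ) ≤ √((r : ℝ) + 1) := Real.sqrt_le_sqrt (by linarith)
    have e1 : (1 / √(r : ℝ) - 1 / √((r : ℝ) + 1)) * s ≤ (1 / √(r : ℝ) - 1 / √((r : ℝ) + 1)) * (r * t) := by
      rcases Nat.eq_zero_or_pos r with h | h
      · have : s = 0 := by
          rw [h] at hst; simp at hst; linarith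
        rw [this, h]
        simp
      · apply mul_le_mul_of_nonneg_left hst
        rw [sub_nonneg]
        apply one_div_le_one_div_of_le _ hpq
        apply Real.sqrt_pos.2
        exact_mod_cast h
    have e2 : 1 / √(r : ℝ) * (r * t) = √(r : ℝ) * t := by
      rcases Nat.eq_zero_or_pos r with h | h
      · rw [h]; simp
      · have : 0 < √(r : ℝ) := Real.sqrt_pos.2 (by exact_mod_cast h)
        field_simp
        rw [hp2]
    have e3 : 1 / √((r : ℝ) + 1) * (r * t) = √((r : ℝ) + 1) * t - 1 / √((r : ℝ) + 1) * t := by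
      field_simp
      rw [hq2]; ring
    rw [sub_mul, sub_mul, e2, e3] at e1
    linarith [e1]
  have h5 : (1 / 2) * (1 / 4 : ℝ) ^ (Nat.clog 16 (r + 1)) * t ≤ (√((r : ℝ) + 1) - √(r : ℝ)) * t :=
    mul_le_mul_of_nonneg_right h2 ht0
  linarith

end Pool.Agent.H50.PA
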