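import Pool.Agent.H50_PropA.Norm

namespace Pool.Agent.H50.PA

open Finset BoundedContinuousFunction

variable {𝕜 : Type} [RCLike 𝕜]

/-- the finitely supported vector `∑ n ∈ A, e n • δ_n`. -/
noncomputable def ind (A : Finset ℕ) (e : ℕ → 𝕜) : ℕ →₀ 𝕜 := ∑ n ∈ A, Finsupp.single n (e n)

lemma ind_apply (A : Finset ℕ) (e : ℕ → 𝕜) (n : ℕ) : ind A e n = if n ∈ A then e n else 0 := by
  unfold ind
  rw [Finsupp.finsetSum_apply]
  simp [Finsupp.single_apply]

lemma G_union {A : Finset ℕ} (B : Finset ℕ) (x : ℕ →₀ 𝕜) (hA : ∀ a ∈ A, ∀ n, ‖x n‖ ≤ ‖x a‖) :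
    G B x ≤ G (A ∪ B) x := by
  induction A using Finset.induction_on with
  | empty => simp
  | insert a A ha ih =>
    have h1 := ih (fun b hb => hA b (mem_insert_of_mem hb))
    refine h1.trans ?_
    rw [insert_union]
    by_cases h : a ∈ A ∪ B
    · rw [insert_eq_self.2 h]
    · exact G_insert h x (hA a (mem_insert_self _ _))

lemma fB_congr {B B' : Finset ℕ} (hc : B.card = B'.card) (x x' : ℕ →₀ 𝕜)
    (h : ∀ n, (n ∉ B → n ∉ B' → x n = x' n) ∧ (n ∈ B → n ∉ B' → x' n = 0) ∧
      (n ∉ B → n ∈ B' → x n = 0)) : fB B x = fB B' x' := by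
  have h1 : x.support ⊆ x.support ∪ x'.support := subset_union_left
  have h2 : x'.support ⊆ x.support ∪ x'.support := subset_union_right
  rw [fB_eq B x h1, fB_eq B' x' h2]
  apply sum_congr rfl
  intro n _
  obtain ⟨a1, a2, a3⟩ := h n
  by_cases hB : n ∈ B <;> by_cases hB' : n ∈ B'
  · rw [cf_of_mem hB, cf_of_mem hB']; simp
  · rw [cf_of_mem hB, a2 hB hB']; simp
  · rw [cf_of_mem hB', a3 hB hB']; simp
  · rw [a1 hB hB']
    unfold cf
    rw [if_neg hB, if_neg hB', hc]

/-- Property (A), one inequality, for finitely supported vectors. -/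
lemma norm_T_le_of_move (y : ℕ →₀ 𝕜) (A A' : Finset ℕ) (e e' : ℕ → 𝕜)
    (he : ∀ n, ‖e n‖ = 1) (he' : ∀ n, ‖e' n‖ = 1) (hy : ∀ n, ‖y n‖ ≤ 1)
    (hc : A.card = A'.card) (hA : ∀ n ∈ A, y n = 0) (hA' : ∀ n ∈ A', y n = 0) :
    ‖T 𝕜 (y + ind A e)‖ ≤ ‖T 𝕜 (y + ind A' e')‖ := by
  apply norm_T_le (norm_nonneg _)
  intro B
  set x := y + ind A e with hx
  set x' := y + ind A' e' with hx'
  have xA : ∀ n ∈ A, x n = e n := fun n hn => by
    rw [hx, Finsupp.add_apply, ind_apply, if_pos hn, hA n hn, zero_add]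
  have xnA : ∀ n, n ∉ A → x n = y n := fun n hn => by
    rw [hx, Finsupp.add_apply, ind_apply, if_neg hn, add_zero]
  have xA' : ∀ n ∈ A', x' n = e' n := fun n hn => by
    rw [hx', Finsupp.add_apply, ind_apply, if_pos hn, hA' n hn, zero_add]
  have xnA' : ∀ n, n ∉ A' → x' n = y n := fun n hn => by
    rw [hx', Finsupp.add_apply, ind_apply, if_neg hn, add_zero]
  have hmax : ∀ a ∈ A, ∀ n, ‖x n‖ ≤ ‖x a‖ := by
    intro a ha n
    rw [xA a ha, he]
    by_cases hn : n ∈ A
    · rw [xA n hn, he]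
    · rw [xnA n hn]; exact hy n
  refine (G_union B x hmax).trans ?_
  set C := A ∪ B with hC
  -- the new set
  set D := C.filter (fun n => y n ≠ 0) with hD
  have hDA' : Disjoint D A' := by
    rw [Finset.disjoint_left]
    intro n hn hn'
    rw [hD, mem_filter] at hn
    exact hn.2 (hA' n hn')
  have hDA : Disjoint D A := by
    rw [Finset.disjoint_left]
    intro n hn hn'
    rw [hD, mem_filter] at hn
    exact hn.2 (hA n hn')
  have hcard : (D ∪ A').card ≤ C.card := by
    rw [card_union_of_disjoint hDA', ← hc, ← card_union_of_disjoint hDA]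
    apply card_le_card
    apply union_subset (filter_subset _ _)
    exact subset_union_left
  obtain ⟨E, hE1, hE2⟩ : ∃ E : Finset ℕ, E.card = C.card - (D ∪ A').card ∧
      Disjoint E (D ∪ A' ∪ y.support) := by
    obtain ⟨E, hE1, hE2⟩ := Set.Infinite.exists_subset_card_eq
      (s := ((D ∪ A' ∪ y.support : Finset ℕ) : Set ℕ)ᶜ) (Set.Finite.infinite_compl (finite_toSet _))
      (C.card - (D ∪ A').card)
    refine ⟨E, hE2, ?_⟩
    rw [Finset.disjoint_left]
    intro n hn hn'
    exact hE1 hn (by exact_mod_cast hn')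
  rw [disjoint_union_right] at hE2
  set C' := D ∪ A' ∪ E with hC'
  have hcard' : C.card = C'.card := by
    rw [hC', card_union_of_disjoint hE2.1.symm, hE1]
    omega
  refine le_trans (le_of_eq ?_) (G_le_norm_T C' x')
  unfold G
  rw [hcard']
  congr 1
  · congr 1
    have s1 : ∑ n ∈ C, ‖x n‖ = (A.card : ℝ) + ∑ n ∈ D, ‖y n‖ := by
      have : C = A ∪ (C \ A) := by
        rw [union_sdiff_of_subset]; exact subset_union_left
      rw [this, sum_union disjoint_sdiff]
      congr 1
      · rw [sum_congr rfl (fun n hn => by rw [xA n hn, he]), sum_const, nsmul_eq_mul, mul_one]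
      · rw [sum_congr rfl (fun n hn => by rw [xnA n (mem_sdiff.1 hn).2])]
        symm
        apply sum_subset
        · intro n hn
          rw [mem_sdiff]
          exact ⟨filter_subset _ _ hn, fun h => Finset.disjoint_left.1 hDA hn h⟩
        · intro n hn hn'
          by_contra h
          apply hn'
          rw [hD, mem_filter]
          refine ⟨(mem_sdiff.1 hn).1, fun h0 => h ?_⟩
          rw [h0, norm_zero]
    have s2 : ∑ n ∈ C', ‖x' n‖ = (A'.card : ℝ) + ∑ n ∈ D, ‖y n‖ := by
      rw [hC', sum_union hE2.1.symm, sum_union hDA']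
      have e1 : ∑ n ∈ D, ‖x' n‖ = ∑ n ∈ D, ‖y n‖ := by
        apply sum_congr rfl
        intro n hn
        rw [xnA' n (Finset.disjoint_left.1 hDA' hn)]
      have e2 : ∑ n ∈ A', ‖x' n‖ = A'.card := by
        rw [sum_congr rfl (fun n hn => by rw [xA' n hn, he']), sum_const, nsmul_eq_mul, mul_one]
      have e3 : ∑ n ∈ E, ‖x' n‖ = 0 := by
        apply sum_eq_zero
        intro n hn
        have h1 : n ∉ A' := fun h => Finset.disjoint_left.1 hE2.1 hn (mem_union_right _ h)
        have h2 : n ∉ y.support := Finset.disjoint_left.1 hE2.2 hn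
        rw [xnA' n h1, Finsupp.notMem_support_iff.1 h2, norm_zero]
      rw [e1, e2, e3]
      ring
    rw [s1, s2, hc]
  · congr 1
    apply fB_congr hcard'
    intro n
    refine ⟨fun h1 h2 => ?_, fun h1 h2 => ?_, fun h1 h2 => ?_⟩
    · have a1 : n ∉ A := fun h => h1 (mem_union_left _ h)
      have a2 : n ∉ A' := fun h => h2 (mem_union_left _ (mem_union_right _ h))
      rw [xnA n a1, xnA' n a2]
    · have a2 : n ∉ A' := fun h => h2 (mem_union_left _ (mem_union_right _ h))
      rw [xnA' n a2]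
      by_contra h
      exact h2 (mem_union_left _ (mem_union_left _ (mem_filter.2 ⟨h1, h⟩)))
    · have a1 : n ∉ A := fun h => h1 (mem_union_left _ h)
      rw [xnA n a1]
      rw [hC', mem_union, mem_union] at h2
      rcases h2 with (h2 | h2) | h2
      · exact absurd (mem_filter.1 h2).1 h1
      · exact hA' n h2
      · exact Finsupp.notMem_support_iff.1 (Finset.disjoint_left.1 hE2.2 h2)

end Pool.Agent.H50.PA
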