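import Pool.Agent.H50_PropA.Cond

namespace Pool.Agent.H50.PA

open Finset BoundedContinuousFunction

variable {𝕜 : Type} [RCLike 𝕜]

lemma sum_norm_le (x : ℕ →₀ 𝕜) (k : ℕ) (S : Finset ℕ) (hS : ∀ n ∈ S, Nat.log 16 n = k) :
    ∑ n ∈ S, (1 / 4 : ℝ) ^ (Nat.log 16 n) * ‖x n‖ ≤ 4 * ‖T 𝕜 x‖ := by
  have h1 : S ⊆ range (16 ^ (k + 1)) := by
    intro n hn
    rw [mem_range, ← hS n hn]
    exact Nat.lt_pow_succ_log_self (by norm_num) n
  have h2 := G_le_norm_T (range (16 ^ (k + 1))) x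
  unfold G at h2
  rw [card_range] at h2
  have h3 : √(((16 ^ (k + 1) : ℕ)) : ℝ) = 4 ^ (k + 1) := by
    rw [Real.sqrt_eq_iff_mul_self_eq (by positivity) (by positivity)]
    push_cast
    rw [← mul_pow]; norm_num
  rw [h3] at h2
  have h4 : 1 / (4 : ℝ) ^ (k + 1) * ∑ n ∈ range (16 ^ (k + 1)), ‖x n‖ ≤ ‖T 𝕜 x‖ := by
    have := norm_nonneg (fB (range (16 ^ (k + 1))) x)
    linarith
  calc ∑ n ∈ S, (1 / 4 : ℝ) ^ (Nat.log 16 n) * ‖x n‖ = (1 / 4 : ℝ) ^ k * ∑ n ∈ S, ‖x n‖ := by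
        rw [mul_sum]
        apply sum_congr rfl
        intro n hn
        rw [hS n hn]
    _ ≤ (1 / 4 : ℝ) ^ k * ∑ n ∈ range (16 ^ (k + 1)), ‖x n‖ := by
        gcongr
    _ = 4 * (1 / (4 : ℝ) ^ (k + 1) * ∑ n ∈ range (16 ^ (k + 1)), ‖x n‖) := by
        have h5 : (1 / 4 : ℝ) ^ k = 4 * (1 / (4 : ℝ) ^ (k + 1)) := by
          rw [one_div_pow, pow_succ]
          field_simp
        rw [h5]; ring
    _ ≤ _ := by linarith

lemma tail_sum_le (x : ℕ →₀ 𝕜) (k j : ℕ) :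
    ∑ n ∈ Ico (16 ^ k) (16 ^ (k + j)), (16 : ℝ) ^ k / 16 * ((1 / 16 : ℝ) ^ (Nat.log 16 n) *
      ((1 / 4 : ℝ) ^ (Nat.log 16 n) * ‖x n‖)) ≤ ‖T 𝕜 x‖ * (1 - (1 / 16) ^ j) := by
  induction j with
  | zero => simp
  | succ j ih =>
    have hs : ∑ n ∈ Ico (16 ^ k) (16 ^ (k + (j + 1))), (16 : ℝ) ^ k / 16 * ((1 / 16 : ℝ) ^ (Nat.log 16 n) *
      ((1 / 4 : ℝ) ^ (Nat.log 16 n) * ‖x n‖)) = ∑ n ∈ Ico (16 ^ k) (16 ^ (k + j)), (16 : ℝ) ^ k / 16 * ((1 / 16 : ℝ) ^ (Nat.log 16 n) *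
      ((1 / 4 : ℝ) ^ (Nat.log 16 n) * ‖x n‖)) + ∑ n ∈ Ico (16 ^ (k + j)) (16 ^ (k + j + 1)), (16 : ℝ) ^ k / 16 * ((1 / 16 : ℝ) ^ (Nat.log 16 n) *
      ((1 / 4 : ℝ) ^ (Nat.log 16 n) * ‖x n‖)) := by
      rw [Finset.sum_Ico_consecutive]
      · rfl
      · exact Nat.pow_le_pow_right (by norm_num) (by omega)
      · exact Nat.pow_le_pow_right (by norm_num) (by omega)
    rw [hs]
    have h1 := sum_norm_le x (k + j) (Ico (16 ^ (k + j)) (16 ^ (k + j + 1))) (fun n hn => log_of_mem_Ico hn)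
    have h2 : ∑ n ∈ Ico (16 ^ (k + j)) (16 ^ (k + j + 1)), (16 : ℝ) ^ k / 16 * ((1 / 16 : ℝ) ^ (Nat.log 16 n) *
      ((1 / 4 : ℝ) ^ (Nat.log 16 n) * ‖x n‖)) = (1 / 16) * (1 / 16 : ℝ) ^ j * ∑ n ∈ Ico (16 ^ (k + j)) (16 ^ (k + j + 1)),
      ((1 / 4 : ℝ) ^ (Nat.log 16 n) * ‖x n‖) := by
      rw [mul_sum]
      apply sum_congr rfl
      intro n hn
      rw [log_of_mem_Ico hn, pow_add (1 / 16 : ℝ)]
      have : (16 : ℝ) ^ k * (1 / 16 : ℝ) ^ k = 1 := by rw [← mul_pow]; norm_num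
      linear_combination (1 / 16 * (1 / 16 : ℝ) ^ j * ((1 / 4 : ℝ) ^ (k + j) * ‖x n‖)) * this
    rw [h2, pow_succ (1 / 16 : ℝ) j]
    have h3 : (0 : ℝ) < (1 / 16 : ℝ) ^ j := by positivity
    have h4 := norm_nonneg (T 𝕜 x)
    have h5 : (1 / 16) * (1 / 16 : ℝ) ^ j * ∑ n ∈ Ico (16 ^ (k + j)) (16 ^ (k + j + 1)),
      ((1 / 4 : ℝ) ^ (Nat.log 16 n) * ‖x n‖) ≤ (1 / 16) * (1 / 16 : ℝ) ^ j * (4 * ‖T 𝕜 x‖) := by
      gcongr
    nlinarith [mul_nonneg h3.le h4]

lemma fB_add (B : Finset ℕ) (x y : ℕ →₀ 𝕜) : fB B (x + y) = fB B x + fB B y := by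
  have h1 : x.support ⊆ x.support ∪ y.support := subset_union_left
  have h2 : y.support ⊆ x.support ∪ y.support := subset_union_right
  have h3 : (x + y).support ⊆ x.support ∪ y.support := Finsupp.support_add
  rw [fB_eq B x h1, fB_eq B y h2, fB_eq B _ h3, ← sum_add_distrib]
  apply sum_congr rfl
  intro n _
  rw [Finsupp.add_apply]; ring

lemma norm_fB_le_G (B : Finset ℕ) (x : ℕ →₀ 𝕜) : ‖fB B x‖ ≤ ‖T 𝕜 x‖ := by
  refine le_trans ?_ (G_le_norm_T B x)
  unfold G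
  have : 0 ≤ 1 / √(B.card : ℝ) * ∑ n ∈ B, ‖x n‖ := by positivity
  linarith

lemma abs_cf_le' (B : Finset ℕ) (n : ℕ) : |cf B n| ≤ (1 / 64) * (1 / 4 : ℝ) ^ (Nat.log 16 n) := by
  unfold cf
  split_ifs
  · simp
  · rw [abs_mul, abs_mul, abs_of_nonneg (th_nonneg _ _), abs_w,
      abs_of_pos (by norm_num : (0 : ℝ) < 1 / 64)]
    have h1 := th_le_one B.card n
    have h2 : (0 : ℝ) < (1 / 4 : ℝ) ^ (Nat.log 16 n) := by positivity
    nlinarith

/-- conditional part of an initial segment ending at a block. -/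
lemma norm_fB_block (B : Finset ℕ) (x : ℕ →₀ 𝕜) (k : ℕ) :
    ‖fB B (x.filter (· < 16 ^ k))‖ ≤ 3 * ‖T 𝕜 x‖ := by
  have hT := norm_nonneg (T 𝕜 x)
  rcases Nat.eq_zero_or_pos k with h0 | h0
  · subst h0
    have hs : (x.filter (· < 16 ^ 0)).support ⊆ {0} := by
      intro n hn
      rw [Finsupp.support_filter, mem_filter] at hn
      rw [mem_singleton]
      simpa using hn.2
    rw [fB_eq B _ hs, sum_singleton, norm_mul, RCLike.norm_ofReal]
    have h1 := abs_cf_le B 0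
    have h2 := sum_norm_le x 0 {0} (by simp)
    simp only [sum_singleton, Nat.log_zero_right, pow_zero, one_mul] at h2
    have h3 : ‖(x.filter (· < 16 ^ 0)) 0‖ = ‖x 0‖ := by
      rw [Finsupp.filter_apply_pos]; norm_num
    rw [h3]
    have h4 : |cf B 0| ≤ 1 / 64 := by
      have := abs_cf_le' B 0
      simpa using this
    have := norm_nonneg (x 0)
    nlinarith
  obtain ⟨k, rfl⟩ : ∃ k', k = k' + 1 := ⟨k - 1, by omega⟩
  rcases le_or_gt (16 ^ k) B.card with hr | hr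
  · have : fB B (x.filter (· < 16 ^ (k + 1))) = 0 := by
      unfold fB
      apply sum_eq_zero
      intro n hn
      rw [Finsupp.support_filter, mem_filter] at hn
      have h1 : Nat.log 16 n ≤ k := by
        have := Nat.log_lt_of_lt_pow' (b := 16) (by omega : k + 1 ≠ 0) hn.2
        omega
      have h2 : cf B n = 0 := by
        unfold cf
        rw [th_zero_of_le ((Nat.pow_le_pow_right (by norm_num) h1).trans hr)]
        simp
      rw [h2]; simp
    rw [this, norm_zero]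
    linarith
  -- the main case
  obtain ⟨E, hE1, hE2⟩ : ∃ E : Finset ℕ, E.card = 16 ^ k - B.card ∧ Disjoint E (B ∪ x.support) := by
    obtain ⟨E, hE1, hE2⟩ := Set.Infinite.exists_subset_card_eq
      (s := ((B ∪ x.support : Finset ℕ) : Set ℕ)ᶜ) (Set.Finite.infinite_compl (finite_toSet _))
      (16 ^ k - B.card)
    refine ⟨E, hE2, ?_⟩
    rw [Finset.disjoint_left]
    intro n hn hn'
    exact hE1 hn (by exact_mod_cast hn')
  rw [disjoint_union_right] at hE2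
  set B' := B ∪ E with hB'
  have hcard : B'.card = 16 ^ k := by
    rw [hB', card_union_of_disjoint hE2.1.symm, hE1]; omega
  set x1 := x.filter (· < 16 ^ (k + 1)) with hx1
  set x2 := x.filter (fun n => ¬ n < 16 ^ (k + 1)) with hx2
  have hx : x1 + x2 = x := Finsupp.filter_add_filter_not x _
  have h1 : fB B x1 = fB B x - fB B' x - (fB B x2 - fB B' x) := by
    rw [← hx, fB_add]; ring
  obtain ⟨j, hj⟩ : ∃ j, x.support ⊆ range (16 ^ (k + 1 + j)) := by
    refine ⟨x.support.sup id, fun n hn => ?_⟩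
    rw [mem_range]
    refine lt_of_le_of_lt (Finset.le_sup (f := id) hn) ?_
    refine lt_of_lt_of_le (Nat.lt_pow_self (by norm_num : 1 < 16)) ?_
    exact Nat.pow_le_pow_right (by norm_num) (by omega)
  have h2 : ‖fB B x2 - fB B' x‖ ≤ ‖T 𝕜 x‖ := by
    have hj2 : x2.support ⊆ range (16 ^ (k + 1 + j)) := by
      intro n hn
      rw [hx2, Finsupp.support_filter, mem_filter] at hn
      exact hj hn.1
    rw [fB_eq B x2 hj2, fB_eq B' x hj, ← sum_sub_distrib]
    have h3 : ∑ n ∈ range (16 ^ (k + 1 + j)), (x2 n * ((cf B n : ℝ) : 𝕜) - x n * ((cf B' n : ℝ) : 𝕜)) =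
        ∑ n ∈ Ico (16 ^ (k + 1)) (16 ^ (k + 1 + j)), (x2 n * ((cf B n : ℝ) : 𝕜) - x n * ((cf B' n : ℝ) : 𝕜)) := by
      symm
      apply sum_subset
      · intro n hn
        rw [mem_Ico] at hn
        exact mem_range.2 hn.2
      · intro n hn hn'
        have hlt : n < 16 ^ (k + 1) := by
          by_contra h
          exact hn' (mem_Ico.2 ⟨not_lt.1 h, mem_range.1 hn⟩)
        have e1 : x2 n = 0 := by
          rw [hx2, Finsupp.filter_apply_neg]
          exact fun h => h hlt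
        have h1 : Nat.log 16 n ≤ k := by
          have := Nat.log_lt_of_lt_pow' (b := 16) (by omega : k + 1 ≠ 0) hlt
          omega
        have e2 : cf B' n = 0 := by
          unfold cf
          rw [th_zero_of_le]
          · simp
          · rw [hcard]
            exact Nat.pow_le_pow_right (by norm_num) h1
        rw [e1, e2]; simp
    rw [h3]
    have h4 : ∀ n ∈ Ico (16 ^ (k + 1)) (16 ^ (k + 1 + j)),
        ‖x2 n * ((cf B n : ℝ) : 𝕜) - x n * ((cf B' n : ℝ) : 𝕜)‖ ≤ (16 : ℝ) ^ (k + 1) / 16 * ((1 / 16 : ℝ) ^ (Nat.log 16 n) *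
          ((1 / 4 : ℝ) ^ (Nat.log 16 n) * ‖x n‖)) := by
      intro n hn
      rw [mem_Ico] at hn
      have e1 : x2 n = x n := by
        rw [hx2, Finsupp.filter_apply_pos]
        exact not_lt.2 hn.1
      rw [e1, ← mul_sub, norm_mul, ← RCLike.ofReal_sub, RCLike.norm_ofReal]
      have hl : k + 1 ≤ Nat.log 16 n := by
        apply Nat.le_log_of_pow_le (by norm_num) hn.1
      by_cases hB : n ∈ B
      · rw [cf_of_mem hB, cf_of_mem (mem_union_left _ hB)]
        simp only [sub_self, abs_zero, mul_zero]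
        positivity
      by_cases hB2 : n ∈ B'
      · have : x n = 0 := by
          have hE : n ∈ E := by
            rw [hB', mem_union] at hB2
            exact hB2.resolve_left hB
          exact Finsupp.notMem_support_iff.1 (Finset.disjoint_left.1 hE2.2 hE)
        rw [this]; simp
      · unfold cf
        rw [if_neg hB, if_neg hB2, hcard]
        have hp : 16 ^ k ≤ 16 ^ (Nat.log 16 n) := Nat.pow_le_pow_right (by norm_num) (by omega)
        rw [th_of_le (hr.le.trans hp), th_of_le hp]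
        have hpos : (0 : ℝ) < 16 ^ (Nat.log 16 n) := by positivity
        have e3 : 1 / 64 * (1 - (B.card : ℝ) / 16 ^ (Nat.log 16 n)) * w n - 1 / 64 * (1 - ((16 ^ k : ℕ) : ℝ) / 16 ^ (Nat.log 16 n)) * w n
            = 1 / 64 * ((((16 ^ k : ℕ) : ℝ) - B.card) / 16 ^ (Nat.log 16 n)) * w n := by ring
        rw [e3, abs_mul, abs_w]
        have e4 : |1 / 64 * ((((16 ^ k : ℕ) : ℝ) - B.card) / 16 ^ (Nat.log 16 n))| ≤
            (16 : ℝ) ^ (k + 1) / 16 * (1 / 16 : ℝ) ^ (Nat.log 16 n) := by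
          have hb : (B.card : ℝ) ≤ ((16 ^ k : ℕ) : ℝ) := by exact_mod_cast hr.le
          have hb0 : (0 : ℝ) ≤ B.card := by positivity
          rw [abs_of_nonneg (mul_nonneg (by norm_num) (div_nonneg (by linarith) hpos.le))]
          rw [one_div_pow, pow_succ, mul_div_assoc, div_self (by norm_num : (16 : ℝ) ≠ 0), mul_one]
          rw [mul_one_div, ← mul_div_assoc]
          gcongr
          push_cast at hb ⊢
          nlinarith
        calc ‖x n‖ * (|1 / 64 * ((((16 ^ k : ℕ) : ℝ) - B.card) / 16 ^ (Nat.log 16 n))| * (1 / 4 : ℝ) ^ (Nat.log 16 n))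
            ≤ ‖x n‖ * ((16 : ℝ) ^ (k + 1) / 16 * (1 / 16 : ℝ) ^ (Nat.log 16 n) * (1 / 4 : ℝ) ^ (Nat.log 16 n)) := by
              gcongr
          _ = _ := by ring
    refine (norm_sum_le_of_le _ h4).trans ?_
    refine (tail_sum_le x (k + 1) j).trans ?_
    have : (0 : ℝ) ≤ (1 / 16 : ℝ) ^ j := by positivity
    nlinarith
  rw [h1]
  calc ‖fB B x - fB B' x - (fB B x2 - fB B' x)‖ ≤ ‖fB B x - fB B' x‖ + ‖fB B x2 - fB B' x‖ := norm_sub_le _ _
    _ ≤ (‖fB B x‖ + ‖fB B' x‖) + ‖T 𝕜 x‖ := by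
      gcongr
      exact norm_sub_le _ _
    _ ≤ (‖T 𝕜 x‖ + ‖T 𝕜 x‖) + ‖T 𝕜 x‖ := by
      gcongr
      · exact norm_fB_le_G _ _
      · exact norm_fB_le_G _ _
    _ = _ := by ring

lemma norm_T_filter_le (x : ℕ →₀ 𝕜) (N : ℕ) : ‖T 𝕜 (x.filter (· < N))‖ ≤ 5 * ‖T 𝕜 x‖ := by
  have hT := norm_nonneg (T 𝕜 x)
  apply norm_T_le (by positivity)
  intro B
  unfold G
  have h1 : 1 / √(B.card : ℝ) * ∑ n ∈ B, ‖(x.filter (· < N)) n‖ ≤ ‖T 𝕜 x‖ := by
    refine le_trans ?_ (G_le_norm_T B x)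
    unfold G
    have h2 : 1 / √(B.card : ℝ) * ∑ n ∈ B, ‖(x.filter (· < N)) n‖ ≤ 1 / √(B.card : ℝ) * ∑ n ∈ B, ‖x n‖ := by
      gcongr with n hn
      rw [Finsupp.filter_apply]
      split_ifs
      · exact le_rfl
      · rw [norm_zero]; exact norm_nonneg _
    have := norm_nonneg (fB B x)
    linarith
  have h2 : ‖fB B (x.filter (· < N))‖ ≤ 4 * ‖T 𝕜 x‖ := by
    rcases Nat.eq_zero_or_pos N with h0 | h0
    · subst h0
      have : x.filter (· < 0) = 0 := by
        ext n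
        rw [Finsupp.filter_apply]
        simp
      rw [this]
      unfold fB
      simp
    set k := Nat.log 16 N with hk
    have hkN : 16 ^ k ≤ N := Nat.pow_log_le_self _ (by omega)
    have hNk : N < 16 ^ (k + 1) := Nat.lt_pow_succ_log_self (by norm_num) N
    have hx : x.filter (· < N) = x.filter (· < 16 ^ k) + x.filter (fun n => 16 ^ k ≤ n ∧ n < N) := by
      ext n
      rw [Finsupp.add_apply, Finsupp.filter_apply, Finsupp.filter_apply, Finsupp.filter_apply]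
      by_cases c1 : n < 16 ^ k
      · rw [if_pos (by omega), if_pos c1, if_neg (by omega), add_zero]
      · by_cases c2 : n < N
        · rw [if_pos c2, if_neg c1, if_pos ⟨by omega, c2⟩, zero_add]
        · rw [if_neg c2, if_neg c1, if_neg (by omega), zero_add]
    rw [hx, fB_add]
    refine (norm_add_le _ _).trans ?_
    have h3 := norm_fB_block B x k
    have h4 : ‖fB B (x.filter (fun n => 16 ^ k ≤ n ∧ n < N))‖ ≤ ‖T 𝕜 x‖ := by
      have hs : (x.filter (fun n => 16 ^ k ≤ n ∧ n < N)).support ⊆ Ico (16 ^ k) (16 ^ (k + 1)) := by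
        intro n hn
        rw [Finsupp.support_filter, mem_filter] at hn
        rw [mem_Ico]
        exact ⟨hn.2.1, hn.2.2.trans hNk⟩
      rw [fB_eq B _ hs]
      have h5 := sum_norm_le x k (Ico (16 ^ k) (16 ^ (k + 1))) (fun n hn => log_of_mem_Ico hn)
      have h6 : ∀ n ∈ Ico (16 ^ k) (16 ^ (k + 1)), ‖(x.filter (fun n => 16 ^ k ≤ n ∧ n < N)) n * ((cf B n : ℝ) : 𝕜)‖ ≤
          (1 / 64) * ((1 / 4 : ℝ) ^ (Nat.log 16 n) * ‖x n‖) := by
        intro n _
        rw [norm_mul, RCLike.norm_ofReal]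
        have e1 : ‖(x.filter (fun n => 16 ^ k ≤ n ∧ n < N)) n‖ ≤ ‖x n‖ := by
          rw [Finsupp.filter_apply]
          split_ifs
          · exact le_rfl
          · rw [norm_zero]; exact norm_nonneg _
        calc _ ≤ ‖x n‖ * ((1 / 64) * (1 / 4 : ℝ) ^ (Nat.log 16 n)) :=
              mul_le_mul e1 (abs_cf_le' B n) (abs_nonneg _) (norm_nonneg _)
          _ = _ := by ring
      refine (norm_sum_le_of_le _ h6).trans ?_
      rw [← mul_sum]
      linarith
    linarith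
  linarith

end Pool.Agent.H50.PA
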